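import Pool.Agent.Y535.PEG.StmA

set_option autoImplicit false
open Complex Set Topology Metric

namespace Pool.Agent.Y331.PEG

open Pool.Agent.H763R2.An Pool.Agent.Y535.PEG

theorem pos_ne {c f g : ℂ} (h : 0 < (c * f * (starRingEnd ℂ) g).re) : c ≠ 0 ∧ f ≠ 0 ∧ g ≠ 0 := by
  refine ⟨?_, ?_, ?_⟩ <;> rintro rfl <;> simp at h

theorem slit {c f g : ℂ} (h : 0 < (c * f * (starRingEnd ℂ) g).re) : c * f / g ∈ slitPlane := by
  obtain ⟨hc, hf, hg⟩ := pos_ne h
  left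
  have h1 : c * f / g = (c * f * (starRingEnd ℂ) g) * (((normSq g)⁻¹ : ℝ) : ℂ) := by
    rw [div_eq_mul_inv, Complex.inv_def]
    push_cast
    ring
  rw [h1, Complex.re_mul_ofReal]
  exact mul_pos h (inv_pos.2 (normSq_pos.2 hg))

/-- comparison of the changes of the logarithm -/
theorem cmp1 {f g : ℝ → ℂ} {a b : ℝ} (c : ℂ) (hab : a ≤ b) (hf : Continuous f)
    (hg : Continuous g) (h : ∀ t ∈ Icc a b, 0 < (c * f t * (starRingEnd ℂ) (g t)).re) :
    dl f a b = dl g a b + (log (c * f b / g b) - log (c * f a / g a)) := by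
  obtain ⟨K, hK, hKe⟩ := ex_log hab hg (fun t ht => (pos_ne (h t ht)).2.2)
  have hc : c ≠ 0 := (pos_ne (h a ⟨le_rfl, hab⟩)).1
  rw [dl_eq hab hK.continuousOn hKe,
    dl_eq (K := fun t => K t + log (c * f t / g t) - log c) hab ?_ ?_]
  · ring
  · refine ContinuousOn.sub (ContinuousOn.add hK.continuousOn ?_) continuousOn_const
    refine ContinuousOn.clog ?_ (fun t ht => slit (h t ht))
    exact ContinuousOn.div (by fun_prop) hg.continuousOn (fun t ht => (pos_ne (h t ht)).2.2)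
  · intro t ht
    obtain ⟨-, hf', hg'⟩ := pos_ne (h t ht)
    rw [exp_sub, exp_add, hKe t ht, exp_log hc, exp_log (by
      exact div_ne_zero (mul_ne_zero hc hf') hg')]
    field_simp

/-- the case of a half plane -/
theorem cmp0 {f : ℝ → ℂ} {a b : ℝ} (c : ℂ) (hab : a ≤ b) (hf : Continuous f)
    (h : ∀ t ∈ Icc a b, 0 < (c * f t).re) :
    dl f a b = log (c * f b) - log (c * f a) := by
  have h1 := cmp1 (g := fun _ => (1 : ℂ)) c hab hf continuous_const (fun t ht => by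
    simpa using h t ht)
  have h2 : dl (fun _ : ℝ => (1 : ℂ)) a b = 0 := by
    rw [dl_eq (K := fun _ => (0 : ℂ)) hab continuousOn_const (fun t _ => exp_zero)]
    ring
  rw [h1, h2]
  simp

/-- comparison of the windings around a box -/
theorem cmpB {F H : ℝ → ℝ → ℂ} (hF : Continuous fun p : ℝ × ℝ => F p.1 p.2)
    (hH : Continuous fun p : ℝ × ℝ => H p.1 p.2) (c : ℂ) {x0 y0 r : ℝ} (hr : 0 < r)
    (h : ∀ s t : ℝ, |s| ≤ r → |t| ≤ r → (s ≠ 0 ∨ t ≠ 0) →
      0 < (c * F (x0 + s) (y0 + t) * (starRingEnd ℂ) (H (x0 + s) (y0 + t))).re) :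
    Wd F (x0 - r) (x0 + r) (y0 - r) (y0 + r) = Wd H (x0 - r) (x0 + r) (y0 - r) (y0 + r) := by
  have hx : ∀ x y : ℝ, |x - x0| ≤ r → |y - y0| ≤ r → (x - x0 ≠ 0 ∨ y - y0 ≠ 0) →
      0 < (c * F x y * (starRingEnd ℂ) (H x y)).re := by
    intro x y h1 h2 h3
    have h4 := h (x - x0) (y - y0) h1 h2 h3
    rwa [add_sub_cancel, add_sub_cancel] at h4
  have hb : ∀ x x0 : ℝ, x ∈ Icc (x0 - r) (x0 + r) → |x - x0| ≤ r := by
    intro x x0 hx
    rw [abs_le]
    exact ⟨by linarith [hx.1], by linarith [hx.2]⟩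
  have he1 : ∀ x0 : ℝ, |x0 - r - x0| ≤ r := by
    intro x0
    rw [show x0 - r - x0 = -r by ring, abs_neg, abs_of_pos hr]
  have he2 : ∀ x0 : ℝ, |x0 + r - x0| ≤ r := by
    intro x0
    rw [show x0 + r - x0 = r by ring, abs_of_pos hr]
  have hn1 : ∀ x0 : ℝ, x0 - r - x0 ≠ 0 := by
    intro x0
    rw [show x0 - r - x0 = -r by ring]
    linarith
  have hn2 : ∀ x0 : ℝ, x0 + r - x0 ≠ 0 := by
    intro x0
    rw [show x0 + r - x0 = r by ring]
    linarith
  unfold Wd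
  rw [cmp1 (f := fun x => F x (y0 - r)) (g := fun x => H x (y0 - r)) c (by linarith) (Gx hF _)
      (Gx hH _) (fun x hx' => hx x _ (hb x x0 hx') (he1 y0) (Or.inr (hn1 y0))),
    cmp1 (f := fun x => F x (y0 + r)) (g := fun x => H x (y0 + r)) c (by linarith) (Gx hF _)
      (Gx hH _) (fun x hx' => hx x _ (hb x x0 hx') (he2 y0) (Or.inr (hn2 y0))),
    cmp1 (f := fun y => F (x0 + r) y) (g := fun y => H (x0 + r) y) c (by linarith) (Gy hF _)
      (Gy hH _) (fun y hy' => hx _ y (he2 x0) (hb y y0 hy') (Or.inl (hn2 x0))),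
    cmp1 (f := fun y => F (x0 - r) y) (g := fun y => H (x0 - r) y) c (by linarith) (Gy hF _)
      (Gy hH _) (fun y hy' => hx _ y (he1 x0) (hb y y0 hy') (Or.inl (hn1 x0)))]
  ring

/-- the linear maps with the standard winding -/
noncomputable def Zs (x0 y0 σ : ℝ) (x y : ℝ) : ℂ := ((x - x0 : ℝ) : ℂ) + ((σ * (y - y0) : ℝ) : ℂ) * I

theorem Zs_cont (x0 y0 σ : ℝ) : Continuous fun p : ℝ × ℝ => Zs x0 y0 σ p.1 p.2 := by
  unfold Zs
  fun_prop

theorem log_diff {r σ : ℝ} (hr : 0 < r) (hσ : σ = 1 ∨ σ = -1) :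
    log ((r : ℂ) + ((σ * r : ℝ) : ℂ) * I) - log ((r : ℂ) - ((σ * r : ℝ) : ℂ) * I)
      = σ * (Real.pi / 2 : ℂ) * I := by
  have key : log ((r : ℂ) + (r : ℂ) * I) - log ((r : ℂ) - (r : ℂ) * I) = (Real.pi / 2 : ℂ) * I := by
    have harg : arg ((r : ℂ) + (r : ℂ) * I) = Real.pi / 4 := by
      have h1 : (r : ℂ) + (r : ℂ) * I = ((r * √2 : ℝ) : ℂ) *
          (cos ((Real.pi / 4 : ℝ) : ℂ) + sin ((Real.pi / 4 : ℝ) : ℂ) * I) := by
        rw [← ofReal_cos, ← ofReal_sin, Real.cos_pi_div_four, Real.sin_pi_div_four]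
        have h2 : ((√2 : ℝ) : ℂ) * ((√2 : ℝ) : ℂ) = 2 := by
          rw [← ofReal_mul, Real.mul_self_sqrt (by norm_num)]
          norm_num
        push_cast
        linear_combination (-(r : ℂ) / 2 - (r : ℂ) / 2 * I) * h2
      rw [h1, Complex.arg_mul_cos_add_sin_mul_I (by positivity)]
      constructor
      · have := Real.pi_pos
        linarith
      · have := Real.pi_pos
        linarith
    have hconj : (r : ℂ) - (r : ℂ) * I = (starRingEnd ℂ) ((r : ℂ) + (r : ℂ) * I) := by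
      rw [map_add, map_mul, conj_ofReal, conj_I]
      ring
    rw [hconj, log_conj _ (by
      rw [harg]
      have := Real.pi_pos
      linarith)]
    rw [Complex.sub_conj, log_im, harg]
    push_cast
    ring
  rcases hσ with rfl | rfl
  · rw [one_mul, ofReal_one, one_mul]
    exact key
  · push_cast
    have h1 : (r : ℂ) + -1 * (r : ℂ) * I = (r : ℂ) - (r : ℂ) * I := by ring
    have h2 : (r : ℂ) - -1 * (r : ℂ) * I = (r : ℂ) + (r : ℂ) * I := by ring
    rw [h1, h2]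
    linear_combination -key

theorem Wd_Zs {x0 y0 r σ : ℝ} (hr : 0 < r) (hσ : σ = 1 ∨ σ = -1) :
    Wd (Zs x0 y0 σ) (x0 - r) (x0 + r) (y0 - r) (y0 + r) = σ * (2 * Real.pi * I) := by
  have hσ2 : σ * σ = 1 := by rcases hσ with rfl | rfl <;> norm_num
  have hσ2' : (σ : ℂ) * (σ : ℂ) = 1 := by
    rw [← ofReal_mul, hσ2, ofReal_one]
  have hI := I_mul_I
  have hre : ∀ (p q : ℝ), ((p : ℂ) + (q : ℂ) * I).re = p := by
    intro p q
    simp
  have e1 : ∀ x : ℝ, ((σ : ℂ) * I) * Zs x0 y0 σ x (y0 - r) = (r : ℂ) + ((σ * (x - x0) : ℝ) : ℂ) * I := by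
    intro x
    unfold Zs
    push_cast
    linear_combination (-(σ : ℂ) * σ * r) * hI + (r : ℂ) * hσ2'
  have e2 : ∀ y : ℝ, (1 : ℂ) * Zs x0 y0 σ (x0 + r) y = (r : ℂ) + ((σ * (y - y0) : ℝ) : ℂ) * I := by
    intro y
    unfold Zs
    push_cast
    ring
  have e3 : ∀ x : ℝ, (-(σ : ℂ) * I) * Zs x0 y0 σ x (y0 + r)
      = (r : ℂ) + ((-(σ * (x - x0)) : ℝ) : ℂ) * I := by
    intro x
    unfold Zs
    push_cast
    linear_combination (-(σ : ℂ) * σ * r) * hI + (r : ℂ) * hσ2'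
  have e4 : ∀ y : ℝ, (-1 : ℂ) * Zs x0 y0 σ (x0 - r) y
      = (r : ℂ) + ((-(σ * (y - y0)) : ℝ) : ℂ) * I := by
    intro y
    unfold Zs
    push_cast
    ring
  unfold Wd
  have hZ := Zs_cont x0 y0 σ
  rw [cmp0 (f := fun x => Zs x0 y0 σ x (y0 - r)) ((σ : ℂ) * I) (by linarith) (Gx hZ _)
      (fun t _ => by rw [e1, hre]; exact hr),
    cmp0 (f := fun y => Zs x0 y0 σ (x0 + r) y) 1 (by linarith) (Gy hZ _)
      (fun t _ => by rw [e2, hre]; exact hr),
    cmp0 (f := fun x => Zs x0 y0 σ x (y0 + r)) (-(σ : ℂ) * I) (by linarith) (Gx hZ _)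
      (fun t _ => by rw [e3, hre]; exact hr),
    cmp0 (f := fun y => Zs x0 y0 σ (x0 - r) y) (-1) (by linarith) (Gy hZ _)
      (fun t _ => by rw [e4, hre]; exact hr)]
  rw [e1, e1, e2, e2, e3, e3, e4, e4]
  have g1 : ∀ x0 : ℝ, σ * (x0 + r - x0) = σ * r := fun x0 => by ring
  have g2 : ∀ x0 : ℝ, σ * (x0 - r - x0) = -(σ * r) := fun x0 => by ring
  simp only [g1, g2, neg_neg]
  have h5 : (r : ℂ) + ((-(σ * r) : ℝ) : ℂ) * I = (r : ℂ) - ((σ * r : ℝ) : ℂ) * I := by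
    push_cast
    ring
  rw [h5]
  have h6 := log_diff hr hσ
  linear_combination 4 * h6

theorem idx : S_IDX := by
  intro G hG x0 y0 r0 u v κ hr0 hD hpos r hr hrr
  set H : ℝ → ℝ → ℂ := fun x y => ((x - x0 : ℝ) : ℂ) * u + ((y - y0 : ℝ) : ℂ) * v with hH
  have hHc : Continuous fun p : ℝ × ℝ => H p.1 p.2 := by
    rw [hH]
    fun_prop
  have hHe : ∀ s t : ℝ, H (x0 + s) (y0 + t) = s * u + t * v := by
    intro s t
    rw [hH]
    simp only
    rw [add_sub_cancel_left, add_sub_cancel_left]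
  have h1 : Wd G (x0 - r) (x0 + r) (y0 - r) (y0 + r) = Wd H (x0 - r) (x0 + r) (y0 - r) (y0 + r) := by
    refine cmpB hG hHc (κ : ℂ) hr (fun s t hs ht hst => ?_)
    have h2 := hpos s t (hs.trans hrr) (ht.trans hrr) hst
    rw [hHe, mul_assoc, Complex.re_ofReal_mul]
    exact h2
  have hsq : ∀ s t : ℝ, (s ≠ 0 ∨ t ≠ 0) → 0 < s ^ 2 + t ^ 2 := by
    intro s t h
    rcases h with h | h
    · positivity
    · positivity
  have hZe : ∀ s t σ : ℝ, Zs x0 y0 σ (x0 + s) (y0 + t) = (s : ℂ) + ((σ * t : ℝ) : ℂ) * I := by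
    intro s t σ
    unfold Zs
    rw [add_sub_cancel_left, add_sub_cancel_left]
  have key : ∀ σ : ℝ, (σ = 1 ∨ σ = -1) → 0 < σ * (u.re * v.im - u.im * v.re) →
      Wd H (x0 - r) (x0 + r) (y0 - r) (y0 + r) = σ * (2 * Real.pi * I) := by
    intro σ hσ hpos'
    rw [← Wd_Zs (x0 := x0) (y0 := y0) hr hσ]
    refine cmpB hHc (Zs_cont x0 y0 σ) ((starRingEnd ℂ) (u - (σ : ℂ) * I * v)) hr
      (fun s t hs ht hst => ?_)
    rw [hHe, hZe]
    have h3 : ((starRingEnd ℂ) (u - (σ : ℂ) * I * v) * (s * u + t * v) *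
        (starRingEnd ℂ) ((s : ℂ) + ((σ * t : ℝ) : ℂ) * I)).re
        = (s * u.re + t * v.re) ^ 2 + (s * u.im + t * v.im) ^ 2
          + σ * (u.re * v.im - u.im * v.re) * (s ^ 2 + t ^ 2) := by
      rcases hσ with rfl | rfl
      · simp
        ring
      · simp
        ring
    rw [h3]
    have h4 := mul_pos hpos' (hsq s t hst)
    positivity
  rw [h1]
  by_cases h2 : 0 < u.re * v.im - u.im * v.re
  · rw [if_pos h2, key 1 (Or.inl rfl) (by linarith)]
    push_cast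
    ring
  · have h3 : u.re * v.im - u.im * v.re < 0 := lt_of_le_of_ne (not_lt.1 h2) hD
    rw [if_neg h2, key (-1) (Or.inr rfl) (by linarith)]
    push_cast
    ring

end Pool.Agent.Y331.PEG
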